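import Mathlib

set_option autoImplicit false

namespace Pool.Agent.Results.MP_096921_co.SaneShrikhande

open Finset

/-! ### The arithmetic -/

/-- `g L = 0` and `4 ≤ e < m`, `1 ≤ L` leave only `L = e`, `m = e + 1`. -/
lemma arith_big {m e L : ℤ} (he : 4 ≤ e) (hem : e < m) (hL : 1 ≤ L)
    (hG : ((e - 3) * m ^ 2 + 2 * (e + 1) * m - (e + 1)) * L ^ 2 =
      (e + 1) * ((e - 3) * m ^ 2 + (e + 3) * m - (e + 1)) * L + (e + 1) * (m - 1) * (m - e)) :
    L = e ∧ m = e + 1 := by
  have hm : 5 ≤ m := by omega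
  have ha : 0 < (e - 3) * m ^ 2 + 2 * (e + 1) * m - (e + 1) := by nlinarith [sq_nonneg m]
  set a := (e - 3) * m ^ 2 + 2 * (e + 1) * m - (e + 1) with hadef
  set b := (e + 1) * ((e - 3) * m ^ 2 + (e + 3) * m - (e + 1)) with hbdef
  have hc : 0 < (e + 1) * (m - 1) * (m - e) := by
    have h1 : 0 < m - e := by omega
    have h2 : 0 < m - 1 := by omega
    positivity
  set c := (e + 1) * (m - 1) * (m - e) with hcdef
  -- the values at `e`, `e + 1`, `e + 2`
  have ge : a * e ^ 2 - b * e - c = (e - 1) ^ 2 * m * (e + 1 - m) := by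
    rw [hadef, hbdef, hcdef]; ring
  have ge1 : a * (e + 1) ^ 2 - b * (e + 1) - c = (e + 1) * (e * (e + 1) * m - m ^ 2 - e) := by
    rw [hadef, hbdef, hcdef]; ring
  have ge2 : a * (e + 2) ^ 2 - b * (e + 2) - c =
      (e ^ 2 - 2 * e - 7) * m ^ 2 + (e + 1) ^ 2 * (e + 3) * m - 2 * (e + 1) ^ 2 := by
    rw [hadef, hbdef, hcdef]; ring
  have ge0' : a * e ^ 2 - b * e - c ≤ 0 := by
    rw [ge]
    have h1 : e + 1 - m ≤ 0 := by omega
    have h2 : 0 ≤ (e - 1) ^ 2 * m := by positivity
    exact mul_nonpos_of_nonneg_of_nonpos h2 h1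
  have ge2' : 0 < a * (e + 2) ^ 2 - b * (e + 2) - c := by
    rw [ge2]
    have h1 : 1 ≤ e ^ 2 - 2 * e - 7 := by nlinarith
    have h2 : 0 < m ^ 2 := by positivity
    have h3 : 2 * (e + 1) ^ 2 ≤ (e + 1) ^ 2 * (e + 3) * m := by
      have h4 : 2 ≤ (e + 3) * m := by nlinarith
      nlinarith [sq_nonneg (e + 1)]
    nlinarith
  have hle : e ≤ L := by
    by_contra hlt
    push Not at hlt
    have key : e * (a * L ^ 2 - b * L - c) =
        -((e - L) * c) + L * (a * e ^ 2 - b * e - c) - a * e * L * (e - L) := by ring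
    have h0 : a * L ^ 2 - b * L - c = 0 := by linarith
    rw [h0, mul_zero] at key
    have h1 : 0 < (e - L) * c := mul_pos (by omega) hc
    have h2 : L * (a * e ^ 2 - b * e - c) ≤ 0 :=
      mul_nonpos_of_nonneg_of_nonpos (by omega) ge0'
    have h3 : 0 < a * e * L * (e - L) := by
      have : 0 < e - L := by omega
      have : 0 < e := by omega
      have : 0 < L := by omega
      positivity
    linarith
  have hge : L ≤ e + 1 := by
    by_contra hlt
    push Not at hlt
    have hlt' : e + 2 ≤ L := by omega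
    have key : L * (a * (e + 2) ^ 2 - b * (e + 2) - c) =
        -((L - (e + 2)) * c) + (e + 2) * (a * L ^ 2 - b * L - c) -
          a * (e + 2) * L * (L - (e + 2)) := by ring
    have h0 : a * L ^ 2 - b * L - c = 0 := by linarith
    rw [h0, mul_zero, add_zero] at key
    have h1 : 0 ≤ (L - (e + 2)) * c := mul_nonneg (by omega) hc.le
    have h2 : 0 < L * (a * (e + 2) ^ 2 - b * (e + 2) - c) := mul_pos (by omega) ge2'
    have h3 : 0 ≤ a * (e + 2) * L * (L - (e + 2)) := by
      have : 0 ≤ L - (e + 2) := by omega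
      have : 0 < e + 2 := by omega
      have : 0 < L := by omega
      positivity
    linarith
  rcases eq_or_lt_of_le hle with h | h
  · refine ⟨h.symm, ?_⟩
    have h0 : a * e ^ 2 - b * e - c = 0 := by rw [h]; linarith
    rw [ge] at h0
    rcases mul_eq_zero.1 h0 with h1 | h1
    · have : (e - 1) ^ 2 * m ≠ 0 := by
        have : 0 < e - 1 := by omega
        positivity
      exact absurd h1 this
    · omega
  · exfalso
    have hL1 : L = e + 1 := by omega
    subst hL1
    have h0 : a * (e + 1) ^ 2 - b * (e + 1) - c = 0 := by linarith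
    rw [ge1] at h0
    rcases mul_eq_zero.1 h0 with h1 | h1
    · omega
    · have hdvd : m ∣ e := ⟨e * (e + 1) - m, by linarith⟩
      exact absurd (Int.le_of_dvd (by omega) hdvd) (by omega)

/-- The case `e = 2`, that is `y = 3`. -/
lemma arith_three {m L : ℤ} (hm3 : 3 ≤ m) (hL : 1 ≤ L)
    (hG : ((2 - 3) * m ^ 2 + 2 * (2 + 1) * m - (2 + 1)) * L ^ 2 =
      (2 + 1) * ((2 - 3) * m ^ 2 + (2 + 3) * m - (2 + 1)) * L + (2 + 1) * (m - 1) * (m - 2)) :
    (m = 3 ∧ L = 2) ∨ (m = 6 ∧ L = 4) ∨ (m = 6 ∧ L = 5) := by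
  have hm6 : m ≤ 6 := by
    by_contra hlt
    push Not at hlt
    have hm7 : 7 ≤ m := by omega
    have h6 : (2 * (m ^ 2 - 6 * m + 3) * L - 3 * (m ^ 2 - 5 * m + 3)) ^ 2 =
        -3 * m ^ 4 + 18 * m ^ 3 + 3 * m ^ 2 - 18 * m + 9 := by
      linear_combination (-4 * (m ^ 2 - 6 * m + 3)) * hG
    have h7 : -3 * m ^ 4 + 18 * m ^ 3 + 3 * m ^ 2 - 18 * m + 9 < 0 := by
      obtain ⟨n, rfl⟩ : ∃ n, m = n + 7 := ⟨m - 7, by ring⟩
      have hn : 0 ≤ n := by omega
      have e2 : 0 ≤ n ^ 2 := by positivity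
      have e3 : 0 ≤ n ^ 3 := by positivity
      have e4 : 0 ≤ n ^ 4 := by positivity
      ring_nf
      linarith
    have h8 := sq_nonneg (2 * (m ^ 2 - 6 * m + 3) * L - 3 * (m ^ 2 - 5 * m + 3))
    linarith
  have h3 : m = 3 ∨ m = 4 ∨ m = 5 ∨ m = 6 := by omega
  rcases h3 with rfl | rfl | rfl | rfl
  · have h6 : (L - 2) * (2 * L + 1) = 0 := by linarith
    rcases mul_eq_zero.1 h6 with h7 | h7
    · left; omega
    · omega
  · exfalso
    have h6 : 5 * L ^ 2 - 3 * L - 18 = 0 := by linarith
    have h7 : L ≤ 3 := by nlinarith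
    have h8 : L = 1 ∨ L = 2 ∨ L = 3 := by omega
    rcases h8 with rfl | rfl | rfl <;> omega
  · exfalso
    have h6 : 2 * L ^ 2 + 9 * L - 36 = 0 := by linarith
    have h7 : L ≤ 3 := by nlinarith
    have h8 : L = 1 ∨ L = 2 ∨ L = 3 := by omega
    rcases h8 with rfl | rfl | rfl <;> omega
  · have h6 : (L - 4) * (L - 5) = 0 := by linarith
    rcases mul_eq_zero.1 h6 with h7 | h7
    · right; left; omega
    · right; right; omega

/-- The case `e = 3`, that is `y = 4`. -/
lemma arith_four {m L : ℤ} (hm4 : 4 ≤ m) (hL : 1 ≤ L)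
    (hG : ((3 - 3) * m ^ 2 + 2 * (3 + 1) * m - (3 + 1)) * L ^ 2 =
      (3 + 1) * ((3 - 3) * m ^ 2 + (3 + 3) * m - (3 + 1)) * L + (3 + 1) * (m - 1) * (m - 3)) :
    m = 4 ∧ L = 3 := by
  have h6 : (2 * m - 1) * L ^ 2 = (6 * m - 4) * L + (m - 1) * (m - 3) := by linarith
  have hdvd : (2 * m - 1) ∣ (4 * L - 5) := by
    refine ⟨12 * L + (2 * m - 7) - 4 * L ^ 2, ?_⟩
    linear_combination 4 * h6
  have hL5 : 2 * m - 1 ≤ 4 * L - 5 := by
    by_cases hL1 : L = 1
    · subst hL1
      exfalso
      nlinarith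
    · exact Int.le_of_dvd (by omega) hdvd
  have hm4' : m = 4 := by
    by_contra hne
    obtain ⟨n, rfl⟩ : ∃ n, m = n + 5 := ⟨m - 5, by ring⟩
    have hn : 0 ≤ n := by omega
    obtain ⟨t, ht⟩ : ∃ t, 4 * L = 2 * n + 14 + t := ⟨4 * L - 2 * n - 14, by ring⟩
    have ht0 : 0 ≤ t := by omega
    have h8 : (2 * (n + 5) - 1) * (4 * L) ^ 2 =
      4 * (6 * (n + 5) - 4) * (4 * L) + 16 * (((n + 5) - 1) * ((n + 5) - 3)) := by linarith
    rw [ht] at h8
    have e1 : 0 ≤ n * t := mul_nonneg hn ht0
    have e2 : 0 ≤ n ^ 2 := by positivity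
    have e3 : 0 ≤ n ^ 3 := by positivity
    have e4 : 0 ≤ n ^ 2 * t := by positivity
    have e5 : 0 ≤ n * t ^ 2 := by positivity
    have e6 : 0 ≤ t ^ 2 := by positivity
    ring_nf at h8
    linarith
  subst hm4'
  refine ⟨rfl, ?_⟩
  have h7 : (L - 3) * (7 * L + 1) = 0 := by linarith
  rcases mul_eq_zero.1 h7 with h8 | h8
  · omega
  · omega

/-- All solutions of the equations for the parameters: `m = k - 1`, `e = y - 1`, `q = v - 2`,
`L = λ_3`, `M = λ_2`. -/
lemma arith {m e L M q : ℤ} (hm : 2 ≤ m) (he : 1 ≤ e) (hem : e < m) (hL : 1 ≤ L)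
    (hq : 2 * m - 1 ≤ q) (R2 : M * (m - 1) = L * q)
    (A1 : (m - 1) * (L - 1) = (e - 1) * (M - 1))
    (A2 : M * ((m + 1) ^ 2 * m ^ 2 - (e + 1) * (q + 1) * ((m + 1) ^ 2 - q - 2)) =
      (m + 1) * m ^ 2 * (m - e)) :
    (m = 2 ∧ q = 3 ∧ L = 1 ∧ e = 1) ∨ (m = 6 ∧ q = 20 ∧ L = 4 ∧ e = 2) ∨
      (m = 6 ∧ q = 21 ∧ L = 5 ∧ e = 2) := by
  have hLpos : (0 : ℤ) < L := by omega
  -- elimination of `λ_2`
  have B1 : (m - 1) * (m - e) = L * ((m - 1) ^ 2 - q * (e - 1)) := by
    linear_combination (-(m - 1)) * A1 - (e - 1) * R2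
  have B2 : q * ((m + 1) ^ 2 * m ^ 2 - (e + 1) * (q + 1) * ((m + 1) ^ 2 - q - 2)) =
      (m + 1) * m ^ 2 * ((m - 1) ^ 2 - q * (e - 1)) := by
    apply mul_left_cancel₀ hLpos.ne'
    linear_combination (m - 1) * A2 + (m + 1) * m ^ 2 * B1 -
      ((m + 1) ^ 2 * m ^ 2 - (e + 1) * (q + 1) * ((m + 1) ^ 2 - q - 2)) * R2
  have B3 : (e + 1) * q ^ 2 - (e + 1) * (m ^ 2 + m - 1) * q + (m + 1) * m ^ 2 * (m - 1) = 0 := by
    have h1 : (q - (m - 1)) * ((e + 1) * q ^ 2 - (e + 1) * (m ^ 2 + m - 1) * q +
        (m + 1) * m ^ 2 * (m - 1)) = 0 := by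
      linear_combination B2
    rcases mul_eq_zero.1 h1 with h2 | h2
    · omega
    · exact h2
  have B4 : (e + 1) * (m - 1) * M ^ 2 - (e + 1) * (m ^ 2 + m - 1) * L * M +
      (m + 1) * m ^ 2 * L ^ 2 = 0 := by
    have h1 : (m - 1) ≠ 0 := by omega
    apply mul_left_cancel₀ h1
    rw [mul_zero]
    linear_combination L ^ 2 * B3 + ((e + 1) * (M * (m - 1) + L * q) -
      (e + 1) * (m ^ 2 + m - 1) * L) * R2
  rcases eq_or_lt_of_le he with h1 | h1
  · -- `y = 2`
    subst h1
    have hL1 : L = 1 := by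
      have h2 : (m - 1) * (L - 1) = 0 := by linarith
      rcases mul_eq_zero.1 h2 with h3 | h3
      · omega
      · omega
    subst hL1
    left
    have hm2 : m = 2 := by
      by_contra hne
      have hm3 : 3 ≤ m := by omega
      have h2 : (2 * (m - 1) * M - (m ^ 2 + m - 1)) ^ 2 =
          -m ^ 4 + 2 * m ^ 3 + m ^ 2 - 2 * m + 1 := by
        linear_combination 2 * (m - 1) * B4
      have h3 : -m ^ 4 + 2 * m ^ 3 + m ^ 2 - 2 * m + 1 < 0 := by
        nlinarith [sq_nonneg (m ^ 2), sq_nonneg m, mul_pos (show (0:ℤ) < m by omega)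
          (show (0:ℤ) < m by omega), pow_pos (show (0:ℤ) < m by omega) 3]
      nlinarith [sq_nonneg (2 * (m - 1) * M - (m ^ 2 + m - 1))]
    subst hm2
    have hMq : M = q := by linarith
    subst hMq
    have h2 : (M - 2) * (M - 3) = 0 := by nlinarith
    rcases mul_eq_zero.1 h2 with h3 | h3
    · omega
    · exact ⟨rfl, by omega, rfl, rfl⟩
  · -- elimination of `λ_2`
    have hG : ((e - 3) * m ^ 2 + 2 * (e + 1) * m - (e + 1)) * L ^ 2 =
        (e + 1) * ((e - 3) * m ^ 2 + (e + 3) * m - (e + 1)) * L +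
          (e + 1) * (m - 1) * (m - e) := by
      have h2 : (m - e) ≠ 0 := by omega
      apply mul_left_cancel₀ h2
      have h3 : (e - 1) * M = (m - 1) * L - (m - e) := by linarith
      linear_combination (-(e - 1) ^ 2) * B4 +
        ((e + 1) * (m - 1) * ((e - 1) * M + ((m - 1) * L - (m - e))) -
          (e + 1) * (m ^ 2 + m - 1) * L * (e - 1)) * h3
    rcases lt_or_ge e 4 with h4 | h4
    · have h5 : e = 2 ∨ e = 3 := by omega
      rcases h5 with rfl | rfl
      · -- `y = 3`
        have h5 := arith_three (by omega) hL hG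
        rcases h5 with ⟨rfl, rfl⟩ | ⟨rfl, rfl⟩ | ⟨rfl, rfl⟩
        · omega
        · right; left; omega
        · right; right; omega
      · -- `y = 4`
        obtain ⟨h5, h6⟩ := arith_four (by omega) hL hG
        subst h5
        subst h6
        omega
    · exfalso
      obtain ⟨h5, h6⟩ := arith_big h4 hem hL hG
      subst h5
      subst h6
      -- now `M = m` and `q = m`
      have h7 : (L - 1) * (M - 1) = (L - 1) * L := by linarith
      have h8 : M - 1 = L := mul_left_cancel₀ (by omega) h7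
      have h9 : M = L + 1 := by omega
      subst h9
      have h10 : L * q = L * (L + 1) := by linarith
      have h11 : q = L + 1 := mul_left_cancel₀ (by omega) h10
      omega

/-! ### Designs -/

section Designs

variable {P : Type} [Fintype P] [DecidableEq P]

/-- `D` is the set of blocks of a `t`-`(v, k, lam)` design on the point set `P`, `v = |P|`: all
blocks are `k`-subsets of `P`, and every `t`-subset of `P` lies in exactly `lam` blocks. -/
def IsDesign (t k lam : ℕ) (D : Finset (Finset P)) : Prop :=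
  (∀ B ∈ D, B.card = k) ∧ ∀ T : Finset P, T.card = t → (D.filter (fun B => T ⊆ B)).card = lam

/-- The set of intersection numbers of `D`: the values `|B ∩ B'|` for distinct blocks `B`, `B'`. -/
def interNumbers (D : Finset (Finset P)) : Set ℕ :=
  {i | ∃ B ∈ D, ∃ B' ∈ D, B ≠ B' ∧ (B ∩ B').card = i}

omit [Fintype P] in
/-- Double counting of the pairs `(B, T)` with `T ⊆ B ∩ S`, `|T| = j`. -/
lemma count_sub {j n : ℕ} {D : Finset (Finset P)}
    (h : ∀ T : Finset P, T.card = j → (D.filter (fun B => T ⊆ B)).card = n) (S : Finset P) :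
    ∑ B ∈ D, (B ∩ S).card.choose j = S.card.choose j * n := by
  have h1 : ∀ B ∈ D, (B ∩ S).card.choose j =
      ((powersetCard j S).bipartiteAbove (fun (B T : Finset P) => T ⊆ B) B).card := by
    intro B _
    rw [← card_powersetCard]
    congr 1
    ext T
    simp only [mem_powersetCard, mem_bipartiteAbove, subset_inter_iff]
    tauto
  rw [sum_congr rfl h1, sum_card_bipartiteAbove_eq_sum_card_bipartiteBelow]
  rw [← card_powersetCard, ← smul_eq_mul, ← sum_const]
  refine sum_congr rfl fun T hT => ?_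
  exact h T (mem_powersetCard.1 hT).2

/-- The number of blocks through a `t`-set, from the number of blocks through the
`(t + 1)`-sets. -/
lemma count_down {t k n : ℕ} {D : Finset (Finset P)} (hk : ∀ B ∈ D, B.card = k)
    (h : ∀ T : Finset P, T.card = t + 1 → (D.filter (fun B => T ⊆ B)).card = n)
    (T : Finset P) (hT : T.card = t) :
    (D.filter (fun B => T ⊆ B)).card * (k - t) = n * (Fintype.card P - t) := by
  have h1 : ∀ B ∈ D.filter (fun B => T ⊆ B),
      ((Tᶜ).bipartiteAbove (fun (B : Finset P) (x : P) => x ∈ B) B).card = k - t := by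
    intro B hB
    rw [mem_filter] at hB
    have h2 : (Tᶜ).bipartiteAbove (fun (B : Finset P) (x : P) => x ∈ B) B = B \ T := by
      ext x
      simp only [mem_bipartiteAbove, mem_compl, mem_sdiff]
      tauto
    rw [h2, card_sdiff_of_subset hB.2, hk B hB.1, hT]
  have h3 : ∀ x ∈ Tᶜ, ((D.filter (fun B => T ⊆ B)).bipartiteBelow
      (fun (B : Finset P) (x : P) => x ∈ B) x).card = n := by
    intro x hx
    rw [mem_compl] at hx
    rw [← h (insert x T) (by rw [card_insert_of_notMem hx, hT])]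
    congr 1
    ext B
    simp only [mem_bipartiteBelow, mem_filter, insert_subset_iff]
    tauto
  have h4 := sum_card_bipartiteAbove_eq_sum_card_bipartiteBelow
    (s := D.filter (fun B => T ⊆ B)) (t := Tᶜ) (fun (B : Finset P) (x : P) => x ∈ B)
  rw [sum_congr rfl h1, sum_congr rfl h3, sum_const, sum_const, card_compl, hT, smul_eq_mul,
    smul_eq_mul] at h4
  rw [h4, mul_comm]

/-- A `(t + 1)`-design is a `t`-design. -/
lemma exists_level {t k n : ℕ} {D : Finset (Finset P)} (hk : ∀ B ∈ D, B.card = k) (htk : t < k)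
    (htv : t ≤ Fintype.card P)
    (h : ∀ T : Finset P, T.card = t + 1 → (D.filter (fun B => T ⊆ B)).card = n) :
    ∃ n' : ℕ, (∀ T : Finset P, T.card = t → (D.filter (fun B => T ⊆ B)).card = n') ∧
      n' * (k - t) = n * (Fintype.card P - t) := by
  obtain ⟨T₀, -, hT₀⟩ := exists_subset_card_eq (s := (univ : Finset P)) (n := t)
    (by rw [card_univ]; exact htv)
  refine ⟨(D.filter (fun B => T₀ ⊆ B)).card, ?_, count_down hk h T₀ hT₀⟩
  intro T hT
  have h1 := count_down hk h T₀ hT₀
  have h2 := count_down hk h T hT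
  exact Nat.eq_of_mul_eq_mul_right (by omega) (h2.trans h1.symm)

omit [Fintype P] in
/-- Split a sum over the blocks according to the size of the intersection with a fixed block. -/
lemma sum_split {D : Finset (Finset P)} {k y : ℕ} (hk : ∀ B ∈ D, B.card = k)
    (hQ : interNumbers D = {1, y}) {B₀ : Finset P} (hB₀ : B₀ ∈ D) :
    ∃ n₁ ny : ℕ, ∀ f : ℕ → ℕ, ∑ B ∈ D, f (B ∩ B₀).card = f k + n₁ * f 1 + ny * f y := by
  refine ⟨((D.erase B₀).filter (fun B => (B ∩ B₀).card = 1)).card,
    ((D.erase B₀).filter (fun B => ¬ (B ∩ B₀).card = 1)).card, fun f => ?_⟩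
  rw [← add_sum_erase D _ hB₀, inter_self, hk B₀ hB₀, add_assoc]
  congr 1
  rw [← sum_filter_add_sum_filter_not (D.erase B₀) (fun B => (B ∩ B₀).card = 1)]
  congr 1
  · rw [← smul_eq_mul, ← sum_const]
    refine sum_congr rfl fun B hB => ?_
    rw [(mem_filter.1 hB).2]
  · rw [← smul_eq_mul, ← sum_const]
    refine sum_congr rfl fun B hB => ?_
    rw [mem_filter, mem_erase] at hB
    have h1 : (B ∩ B₀).card ∈ interNumbers D := ⟨B, hB.1.2, B₀, hB₀, hB.1.1, rfl⟩
    rw [hQ] at h1
    rcases h1 with h1 | h1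
    · exact absurd h1 hB.2
    · rw [h1]

/-- The parameters of quasi-symmetric `3`-designs with `x = 1`. -/
lemma params {D : Finset (Finset P)} {k lam y : ℕ} (hk : 3 ≤ k) (hkv : k < Fintype.card P)
    (hD : IsDesign 3 k lam D) (hy : 1 < y) (hQ : interNumbers D = {1, y}) :
    (k = 3 ∧ Fintype.card P = 5 ∧ lam = 1) ∨
      (k = 7 ∧ Fintype.card P = 22 ∧ lam = 4 ∧ y = 3) ∨
      (k = 7 ∧ Fintype.card P = 23 ∧ lam = 5 ∧ y = 3) := by
  obtain ⟨hcard, h3⟩ := hD
  -- two blocks with one common point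
  obtain ⟨B₀, hB₀, B₁, hB₁, hne, hi⟩ : (1 : ℕ) ∈ interNumbers D := by rw [hQ]; simp
  have hv2 : 2 * k ≤ Fintype.card P + 1 := by
    have h1 := card_union_add_card_inter B₀ B₁
    rw [hcard B₀ hB₀, hcard B₁ hB₁, hi] at h1
    have h2 := card_le_univ (B₀ ∪ B₁)
    omega
  have hyk : y < k := by
    obtain ⟨B₂, hB₂, B₃, hB₃, hne', hi'⟩ : y ∈ interNumbers D := by rw [hQ]; simp
    have h1 : B₂ ∩ B₃ ⊂ B₂ := by
      rw [Finset.ssubset_iff_subset_ne]
      refine ⟨inter_subset_left, fun h => ?_⟩
      have h2 : B₂ ⊆ B₃ := inter_eq_left.1 h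
      exact hne' (eq_of_subset_of_card_le h2 (by rw [hcard B₂ hB₂, hcard B₃ hB₃]))
    have h2 := card_lt_card h1
    rw [hi', hcard B₂ hB₂] at h2
    exact h2
  have hL : 1 ≤ lam := by
    obtain ⟨T, hT, hT3⟩ := exists_subset_card_eq (s := B₀) (n := 3) (by rw [hcard B₀ hB₀]; exact hk)
    rw [← h3 T hT3]
    exact card_pos.2 ⟨B₀, mem_filter.2 ⟨hB₀, hT⟩⟩
  -- the numbers of blocks through points and pairs
  obtain ⟨M, h2, R2⟩ := exists_level (t := 2) hcard (by omega) (by omega) h3
  obtain ⟨r, h1, R1⟩ := exists_level (t := 1) hcard (by omega) (by omega) h2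
  obtain ⟨b, h0, R0⟩ := exists_level (t := 0) hcard (by omega) (by omega) h1
  -- the intersections with `B₀`
  obtain ⟨n₁, ny, hs⟩ := sum_split hcard hQ hB₀
  have e0 : 1 + n₁ + ny = b := by
    have := hs (fun i => i.choose 0)
    rw [count_sub h0 B₀] at this
    simp only [Nat.choose_zero_right, mul_one, one_mul] at this
    exact this.symm
  have e1 : k + n₁ + ny * y = k * r := by
    have := hs (fun i => i.choose 1)
    rw [count_sub h1 B₀, hcard B₀ hB₀] at this
    simp only [Nat.choose_one_right, mul_one] at this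
    exact this.symm
  have e2 : k.choose 2 + ny * y.choose 2 = k.choose 2 * M := by
    have := hs (fun i => i.choose 2)
    rw [count_sub h2 B₀, hcard B₀ hB₀] at this
    simp only [show Nat.choose 1 2 = 0 from rfl, mul_zero, add_zero] at this
    exact this.symm
  have e3 : k.choose 3 + ny * y.choose 3 = k.choose 3 * lam := by
    have := hs (fun i => i.choose 3)
    rw [count_sub h3 B₀, hcard B₀ hB₀] at this
    simp only [show Nat.choose 1 3 = 0 from rfl, mul_zero, add_zero] at this
    exact this.symm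
  -- pass to the variables `m = k - 1`, `e = y - 1`, `q = v - 2`
  obtain ⟨m, rfl⟩ : ∃ m, k = m + 1 := ⟨k - 1, by omega⟩
  obtain ⟨e, rfl⟩ : ∃ e, y = e + 1 := ⟨y - 1, by omega⟩
  obtain ⟨q, hq⟩ : ∃ q, Fintype.card P = q + 2 := ⟨Fintype.card P - 2, by omega⟩
  rw [hq] at hkv hv2 R2 R1 R0 ⊢
  obtain ⟨m', rfl⟩ : ∃ m', m = m' + 2 := ⟨m - 2, by omega⟩
  obtain ⟨e', rfl⟩ : ∃ e', e = e' + 1 := ⟨e - 1, by omega⟩
  have c2 : ∀ a : ℕ, ((a + 2).choose 2 : ℤ) * 2 = (a + 2) * (a + 1) := by
    intro a
    have h := Nat.choose_succ_right_eq (a + 2) 1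
    rw [Nat.choose_one_right] at h
    have h' : (a + 2) - 1 = a + 1 := by omega
    rw [h'] at h
    exact_mod_cast h
  have c3 : ∀ a : ℕ, ((a + 2).choose 3 : ℤ) * 3 = ((a + 2).choose 2 : ℤ) * a := by
    intro a
    have h := Nat.choose_succ_right_eq (a + 2) 2
    have h' : (a + 2) - 2 = a := by omega
    rw [h'] at h
    exact_mod_cast h
  have f2 := c2 (m' + 1)
  have f3 := c3 (m' + 1)
  have g2 := c2 e'
  have g3 := c3 e'
  have R2' : (M : ℤ) * (m' + 1) = lam * q := by
    have h : m' + 2 + 1 - 2 = m' + 1 := by omega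
    have h' : q + 2 - 2 = q := by omega
    rw [h, h'] at R2
    exact_mod_cast R2
  have R1' : (r : ℤ) * (m' + 2) = M * (q + 1) := by
    have h : m' + 2 + 1 - 1 = m' + 2 := by omega
    have h' : q + 2 - 1 = q + 1 := by omega
    rw [h, h'] at R1
    exact_mod_cast R1
  have R0' : (b : ℤ) * (m' + 3) = r * (q + 2) := by
    have h : m' + 2 + 1 - 0 = m' + 3 := by omega
    have h' : q + 2 - 0 = q + 2 := by omega
    rw [h, h'] at R0
    exact_mod_cast R0
  have e0' : 1 + (n₁ : ℤ) + ny = b := by exact_mod_cast e0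
  have e1' : ((m' : ℤ) + 3) + n₁ + ny * (e' + 2) = (m' + 3) * r := by
    have h := e1
    have : m' + 2 + 1 = m' + 3 := by omega
    rw [this] at h
    have : e' + 1 + 1 = e' + 2 := by omega
    rw [this] at h
    exact_mod_cast h
  have e2' : ((m' + 1 + 2).choose 2 : ℤ) + ny * ((e' + 2).choose 2 : ℤ) =
      ((m' + 1 + 2).choose 2 : ℤ) * M := by
    exact_mod_cast e2
  have e3' : ((m' + 1 + 2).choose 3 : ℤ) + ny * ((e' + 2).choose 3 : ℤ) =
      ((m' + 1 + 2).choose 3 : ℤ) * lam := by
    exact_mod_cast e3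
  generalize ((m' + 1 + 2).choose 2 : ℤ) = x2 at f2 f3 e2'
  generalize ((m' + 1 + 2).choose 3 : ℤ) = x3 at f3 e3'
  generalize ((e' + 2).choose 2 : ℤ) = y2 at g2 g3 e2'
  generalize ((e' + 2).choose 3 : ℤ) = y3 at g3 e3'
  push_cast at f2 f3
  -- the two relations between the parameters
  have E2 : ((m' : ℤ) + 3) * (m' + 2) * (M - 1) = ny * ((e' + 2) * (e' + 1)) := by
    linear_combination (-2) * e2' + (M - 1) * (-f2) + ny * g2
  have E3 : ((m' : ℤ) + 3) * (m' + 2) * (m' + 1) * (lam - 1) =
      ny * ((e' + 2) * (e' + 1)) * e' := by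
    linear_combination (-6) * e3' + (lam - 1) * (-2 * f3 - (m' + 1) * f2) +
      ny * (2 * g3 + e' * g2)
  have A1 : ((m' : ℤ) + 1) * (lam - 1) = e' * (M - 1) := by
    have h : ((m' : ℤ) + 3) * (m' + 2) ≠ 0 := by positivity
    apply mul_left_cancel₀ h
    linear_combination E3 - e' * E2
  have A2 : (M : ℤ) * ((m' + 3) ^ 2 * (m' + 2) ^ 2 -
      (e' + 2) * (q + 1) * ((m' + 3) ^ 2 - q - 2)) =
      (m' + 3) * (m' + 2) ^ 2 * ((m' + 2) - (e' + 1)) := by
    have h4 : ((m' : ℤ) + 3) * (r - 1) - (b - 1) = ny * (e' + 1) := by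
      linear_combination e0' - e1'
    have h5 : ((e' : ℤ) + 2) * ((m' + 3) * (r - 1) - (b - 1)) =
        (m' + 3) * (m' + 2) * (M - 1) := by
      rw [h4]
      linear_combination -E2
    linear_combination (-(((m' : ℤ) + 3) * (m' + 2))) * h5 +
      (e' + 2) * (m' + 3) ^ 2 * R1' - (e' + 2) * (q + 2) * R1' - (e' + 2) * (m' + 2) * R0'
  have key := arith (m := (m' : ℤ) + 2) (e := (e' : ℤ) + 1) (L := lam) (M := M) (q := q)
    (by omega) (by omega) (by omega) (by omega) (by omega)
    (by linear_combination R2') (by linear_combination A1) (by linear_combination A2)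
  rcases key with ⟨k1, k2, k3, k4⟩ | ⟨k1, k2, k3, k4⟩ | ⟨k1, k2, k3, k4⟩
  · left; omega
  · right; left; omega
  · right; right; omega

/-! ### The case `y = 3` -/

omit [Fintype P] in
/-- Two different blocks have at most three common points. -/
lemma inter_le {D : Finset (Finset P)} (hQ : interNumbers D = {1, 3}) {B B' : Finset P}
    (hB : B ∈ D) (hB' : B' ∈ D) (hne : B ≠ B') : (B ∩ B').card ≤ 3 := by
  have h1 : (B ∩ B').card ∈ interNumbers D := ⟨B, hB, B', hB', hne, rfl⟩
  rw [hQ] at h1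
  rcases h1 with h1 | h1
  · omega
  · have : (B ∩ B').card = 3 := h1
    omega

omit [Fintype P] in
/-- The blocks through a triple cover `4 lam` further points. -/
lemma card_cover {D : Finset (Finset P)} {lam : ℕ} (hD : IsDesign 3 7 lam D)
    (hQ : interNumbers D = {1, 3}) {T : Finset P} (hT : T.card = 3) :
    ((D.filter (fun B => T ⊆ B)).biUnion (fun B => B \ T)).card = lam * 4 := by
  rw [card_biUnion]
  · rw [← hD.2 T hT, ← smul_eq_mul, ← sum_const]
    refine sum_congr rfl fun B hB => ?_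
    rw [mem_filter] at hB
    rw [card_sdiff_of_subset hB.2, hD.1 B hB.1, hT]
  · intro B hB B' hB' hne
    rw [mem_coe, mem_filter] at hB hB'
    have h1 := inter_le hQ hB.1 hB'.1 hne
    have h2 : T = B ∩ B' := eq_of_subset_of_card_le (subset_inter hB.2 hB'.2) (by omega)
    rw [Function.onFun, disjoint_left]
    intro x hx hx'
    rw [mem_sdiff] at hx hx'
    exact hx.2 (h2 ▸ mem_inter.2 ⟨hx.1, hx'.1⟩)

/-- A `3`-`(23, 7, 5)` design with intersection numbers `1` and `3` is a Steiner system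
`S(4, 7, 23)`. -/
lemma steiner23 {D : Finset (Finset P)} (hP : Fintype.card P = 23) (hD : IsDesign 3 7 5 D)
    (hQ : interNumbers D = {1, 3}) : IsDesign 4 7 1 D := by
  refine ⟨hD.1, fun F hF => ?_⟩
  obtain ⟨x, hx⟩ : F.Nonempty := card_pos.1 (by omega)
  have hT : (F.erase x).card = 3 := by rw [card_erase_of_mem hx, hF]
  have h1 : (D.filter (fun B => F.erase x ⊆ B)).biUnion (fun B => B \ F.erase x) =
      (F.erase x)ᶜ := by
    apply eq_of_subset_of_card_le
    · intro z hz
      rw [mem_biUnion] at hz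
      obtain ⟨B, -, hz⟩ := hz
      rw [mem_compl]
      exact (mem_sdiff.1 hz).2
    · rw [card_cover hD hQ hT, card_compl, hT, hP]
  have h2 : x ∈ (D.filter (fun B => F.erase x ⊆ B)).biUnion (fun B => B \ F.erase x) := by
    rw [h1, mem_compl]
    exact notMem_erase x F
  rw [mem_biUnion] at h2
  obtain ⟨B, hB, hxB⟩ := h2
  rw [mem_filter] at hB
  have hFB : F ⊆ B := by
    intro z hz
    by_cases hzx : z = x
    · rw [hzx]
      exact (mem_sdiff.1 hxB).1
    · exact hB.2 (mem_erase.2 ⟨hzx, hz⟩)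
  rw [card_eq_one]
  refine ⟨B, ?_⟩
  ext B'
  rw [mem_filter, mem_singleton]
  constructor
  · rintro ⟨h3, h4⟩
    by_contra hne
    have h5 := inter_le hQ h3 hB.1 hne
    have h6 := card_le_card (subset_inter h4 hFB)
    omega
  · rintro rfl
    exact ⟨hB.1, hFB⟩

/-- The six points that consist of the triple `T` and of the points which are on no block
through `T`. -/
def hex (D : Finset (Finset P)) (T : Finset P) : Finset P :=
  ((D.filter (fun B => T ⊆ B)).biUnion (fun B => B \ T))ᶜ

lemma mem_hex {D : Finset (Finset P)} {T : Finset P} {x : P} :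
    x ∈ hex D T ↔ ∀ B ∈ D, T ⊆ B → x ∈ B → x ∈ T := by
  unfold hex
  rw [mem_compl, mem_biUnion]
  constructor
  · intro h B hB hT hx
    by_contra hx'
    exact h ⟨B, mem_filter.2 ⟨hB, hT⟩, mem_sdiff.2 ⟨hx, hx'⟩⟩
  · rintro h ⟨B, hB, hx⟩
    rw [mem_filter] at hB
    rw [mem_sdiff] at hx
    exact hx.2 (h B hB.1 hB.2 hx.1)

lemma subset_hex (D : Finset (Finset P)) (T : Finset P) : T ⊆ hex D T :=
  fun _ hx => mem_hex.2 fun _ _ _ _ => hx

lemma card_hex {D : Finset (Finset P)} (hP : Fintype.card P = 22) (hD : IsDesign 3 7 4 D)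
    (hQ : interNumbers D = {1, 3}) {T : Finset P} (hT : T.card = 3) : (hex D T).card = 6 := by
  unfold hex
  rw [card_compl, card_cover hD hQ hT, hP]

/-- Every block meets `hex D T` in an odd number of points. -/
lemma odd_hex {D : Finset (Finset P)} (hD : IsDesign 3 7 4 D)
    (hQ : interNumbers D = {1, 3}) {T : Finset P} (hT : T.card = 3) {B : Finset P} (hB : B ∈ D) :
    Odd (B ∩ hex D T).card := by
  have hodd : ∀ B' ∈ D, Odd (B ∩ B').card := by
    intro B' hB'
    by_cases h : B = B'
    · rw [← h, inter_self, hD.1 B hB]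
      decide
    · have h1 : (B ∩ B').card ∈ interNumbers D := ⟨B, hB, B', hB', h, rfl⟩
      rw [hQ] at h1
      rcases h1 with h1 | h1
      · rw [h1]
        decide
      · rw [show (B ∩ B').card = 3 from h1]
        decide
  -- the complement of `hex D T`
  have h1 : (B ∩ (hex D T)ᶜ).card =
      ∑ B' ∈ D.filter (fun B => T ⊆ B), (B ∩ (B' \ T)).card := by
    have h2 : B ∩ (hex D T)ᶜ =
        (D.filter (fun B => T ⊆ B)).biUnion (fun B' => B ∩ (B' \ T)) := by
      unfold hex
      rw [compl_compl, inter_biUnion]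
    rw [h2, card_biUnion]
    intro B₁ hB₁ B₂ hB₂ hne
    rw [mem_coe, mem_filter] at hB₁ hB₂
    have h3 := inter_le hQ hB₁.1 hB₂.1 hne
    have h4 : T = B₁ ∩ B₂ := eq_of_subset_of_card_le (subset_inter hB₁.2 hB₂.2) (by omega)
    rw [Function.onFun, disjoint_left]
    intro x hx hx'
    rw [mem_inter, mem_sdiff] at hx hx'
    exact hx.2.2 (h4 ▸ mem_inter.2 ⟨hx.2.1, hx'.2.1⟩)
  have h2 : (B ∩ (hex D T)ᶜ).card + 4 * (B ∩ T).card =
      2 * ∑ B' ∈ D.filter (fun B => T ⊆ B), (B ∩ B').card / 2 + 4 := by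
    have h3 : (D.filter (fun B => T ⊆ B)).card = 4 := hD.2 T hT
    have h4 : 4 * (B ∩ T).card = ∑ _B' ∈ D.filter (fun B => T ⊆ B), (B ∩ T).card := by
      rw [sum_const, h3, smul_eq_mul]
    have h5 : (4 : ℕ) = ∑ _B' ∈ D.filter (fun B => T ⊆ B), 1 := by
      rw [sum_const, h3, smul_eq_mul, mul_one]
    rw [h1, h4, ← sum_add_distrib, mul_sum]
    conv_rhs => rw [h5]
    rw [← sum_add_distrib]
    refine sum_congr rfl fun B' hB' => ?_
    rw [mem_filter] at hB'
    have h6 : (B ∩ (B' \ T)).card + (B ∩ T).card = (B ∩ B').card := by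
      rw [← card_union_of_disjoint]
      · congr 1
        ext x
        simp only [mem_union, mem_inter, mem_sdiff]
        constructor
        · rintro (⟨h, h', -⟩ | ⟨h, h'⟩)
          · exact ⟨h, h'⟩
          · exact ⟨h, hB'.2 h'⟩
        · rintro ⟨h, h'⟩
          by_cases hx : x ∈ T
          · exact Or.inr ⟨h, hx⟩
          · exact Or.inl ⟨h, h', hx⟩
      · rw [disjoint_left]
        intro x hx hx'
        rw [mem_inter, mem_sdiff] at hx
        exact hx.2.2 (mem_inter.1 hx').2
    rw [h6]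
    obtain ⟨c, hc⟩ := hodd B' hB'.1
    omega
  have h3 : (B ∩ hex D T).card + (B ∩ (hex D T)ᶜ).card = 7 := by
    rw [← hD.1 B hB, ← card_union_of_disjoint]
    · congr 1
      rw [← inter_union_distrib_left, union_compl, inter_univ]
    · rw [disjoint_left]
      intro x hx hx'
      rw [mem_inter, mem_compl] at hx'
      exact hx'.2 (mem_inter.1 hx).2
  rw [Nat.odd_iff]
  omega

/-- Every block meets `hex D T` in at most three points. -/
lemma inter_hex_le {D : Finset (Finset P)} (hP : Fintype.card P = 22) (hD : IsDesign 3 7 4 D)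
    (hQ : interNumbers D = {1, 3}) {T : Finset P} (hT : T.card = 3) {B : Finset P} (hB : B ∈ D) :
    (B ∩ hex D T).card ≤ 3 := by
  obtain ⟨M, h2, R2⟩ := exists_level (t := 2) hD.1 (by omega) (by omega) hD.2
  have hM : M = 16 := by
    rw [hP] at R2
    omega
  have s2 := count_sub h2 (hex D T)
  have s3 := count_sub hD.2 (hex D T)
  rw [card_hex hP hD hQ hT, hM, show Nat.choose 6 2 = 15 from rfl] at s2
  rw [card_hex hP hD hQ hT, show Nat.choose 6 3 = 20 from rfl] at s3
  have hval : ∀ B ∈ D, (B ∩ hex D T).card = 1 ∨ (B ∩ hex D T).card = 3 ∨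
      (B ∩ hex D T).card = 5 := by
    intro B hB
    obtain ⟨c, hc⟩ := odd_hex hD hQ hT hB
    have h1 : (B ∩ hex D T).card ≤ 6 := by
      rw [← card_hex hP hD hQ hT]
      exact card_le_card inter_subset_right
    omega
  have hle : ∀ B ∈ D, (B ∩ hex D T).card.choose 2 ≤ 3 * (B ∩ hex D T).card.choose 3 := by
    intro B hB
    rcases hval B hB with h | h | h
    · rw [h]; decide
    · rw [h]; decide
    · rw [h]; decide
  have hsum : ∑ B ∈ D, (B ∩ hex D T).card.choose 2 =
      ∑ B ∈ D, 3 * (B ∩ hex D T).card.choose 3 := by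
    rw [← mul_sum, s2, s3]
    norm_num
  have h4 := (sum_eq_sum_iff_of_le hle).1 hsum B hB
  rcases hval B hB with h | h | h
  · omega
  · omega
  · exfalso
    rw [h] at h4
    revert h4
    decide

/-- The six points are determined by any three of them. -/
lemma hex_eq {D : Finset (Finset P)} (hP : Fintype.card P = 22) (hD : IsDesign 3 7 4 D)
    (hQ : interNumbers D = {1, 3}) {T S : Finset P} (hT : T.card = 3) (hS : S.card = 3)
    (hST : S ⊆ hex D T) : hex D T = hex D S := by
  apply eq_of_subset_of_card_le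
  · intro x hx
    rw [mem_hex]
    intro B hB hSB hxB
    by_contra hxS
    have h1 := inter_hex_le hP hD hQ hT hB
    have h2 : insert x S ⊆ B ∩ hex D T := by
      rw [insert_subset_iff]
      exact ⟨mem_inter.2 ⟨hxB, hx⟩, subset_inter hSB hST⟩
    have h3 := card_le_card h2
    rw [card_insert_of_notMem hxS, hS] at h3
    omega
  · rw [card_hex hP hD hQ hT, card_hex hP hD hQ hS]

/-- The blocks of the extension of a `3`-`(22, 7, 4)` design with intersection numbers `1`, `3`. -/
def ext22 (D : Finset (Finset P)) : Finset (Finset (Option P)) :=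
  D.image (fun B => B.map Function.Embedding.some) ∪
    (powersetCard 3 (univ : Finset P)).image (fun T => insertNone (hex D T))

lemma mem_ext22 {D : Finset (Finset P)} {X : Finset (Option P)} : X ∈ ext22 D ↔
    (∃ B ∈ D, B.map Function.Embedding.some = X) ∨
      ∃ T : Finset P, T.card = 3 ∧ insertNone (hex D T) = X := by
  unfold ext22
  simp only [mem_union, mem_image, mem_powersetCard, subset_univ, true_and]

omit [Fintype P] [DecidableEq P] in
lemma subset_map_some {F : Finset (Option P)} {B : Finset P} :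
    F ⊆ B.map Function.Embedding.some ↔ none ∉ F ∧ eraseNone F ⊆ B := by
  constructor
  · intro h
    refine ⟨fun hn => ?_, fun x hx => ?_⟩
    · have := h hn
      simp at this
    · rw [mem_eraseNone] at hx
      have := h hx
      simpa using this
  · rintro ⟨h1, h2⟩ z hz
    match z, hz with
    | none, hz => exact absurd hz h1
    | some x, hz =>
      have := h2 (mem_eraseNone.2 hz)
      simpa using this

omit [Fintype P] [DecidableEq P] in
lemma subset_insertNone {F : Finset (Option P)} {B : Finset P} :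
    F ⊆ insertNone B ↔ eraseNone F ⊆ B := by
  constructor
  · intro h x hx
    rw [mem_eraseNone] at hx
    have := h hx
    simpa using this
  · intro h z hz
    match z, hz with
    | none, hz => simp
    | some x, hz =>
      have := h (mem_eraseNone.2 hz)
      simpa using this

/-- A `3`-`(22, 7, 4)` design with intersection numbers `1` and `3` is the residual of a Steiner
system `S(4, 7, 23)`. -/
lemma steiner22 {D : Finset (Finset P)} (hP : Fintype.card P = 22) (hD : IsDesign 3 7 4 D)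
    (hQ : interNumbers D = {1, 3}) : IsDesign 4 7 1 (ext22 D) := by
  constructor
  · intro X hX
    rw [mem_ext22] at hX
    rcases hX with ⟨B, hB, rfl⟩ | ⟨T, hT, rfl⟩
    · rw [card_map, hD.1 B hB]
    · rw [card_insertNone, card_hex hP hD hQ hT]
  · intro F hF
    rw [card_eq_one]
    by_cases hn : none ∈ F
    · have hT : (eraseNone F).card = 3 := by
        have h1 : (insertNone (eraseNone F)).card = 4 := by
          rw [insertNone_eraseNone, insert_eq_of_mem hn, hF]
        rw [card_insertNone] at h1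
        omega
      refine ⟨insertNone (hex D (eraseNone F)), ?_⟩
      ext X
      rw [mem_filter, mem_singleton, mem_ext22]
      constructor
      · rintro ⟨⟨B, hB, rfl⟩ | ⟨T, hT', rfl⟩, hFX⟩
        · exact absurd hn (subset_map_some.1 hFX).1
        · rw [subset_insertNone] at hFX
          rw [hex_eq hP hD hQ hT' hT hFX]
      · rintro rfl
        exact ⟨Or.inr ⟨_, hT, rfl⟩, subset_insertNone.2 (subset_hex D _)⟩
    · have hF4 : (eraseNone F).card = 4 := by
        rw [← hF, ← card_map Function.Embedding.some, map_some_eraseNone, erase_eq_of_notMem hn]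
      obtain ⟨x, hx⟩ : (eraseNone F).Nonempty := card_pos.1 (by omega)
      have hT : ((eraseNone F).erase x).card = 3 := by rw [card_erase_of_mem hx, hF4]
      by_cases hex1 : ∃ B ∈ D, eraseNone F ⊆ B
      · obtain ⟨B, hB, hFB⟩ := hex1
        refine ⟨B.map Function.Embedding.some, ?_⟩
        ext X
        rw [mem_filter, mem_singleton, mem_ext22]
        constructor
        · rintro ⟨⟨B', hB', rfl⟩ | ⟨T, hT', rfl⟩, hFX⟩
          · have h1 := (subset_map_some.1 hFX).2
            by_contra hne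
            have hne' : B' ≠ B := fun h => hne (by rw [h])
            have h2 := inter_le hQ hB' hB hne'
            have h3 := card_le_card (subset_inter h1 hFB)
            omega
          · exfalso
            rw [subset_insertNone] at hFX
            have h2 := inter_hex_le hP hD hQ hT' hB
            have h3 := card_le_card (subset_inter hFB hFX)
            omega
        · rintro rfl
          exact ⟨Or.inl ⟨B, hB, rfl⟩, subset_map_some.2 ⟨hn, hFB⟩⟩
      · have h0 : eraseNone F ⊆ hex D ((eraseNone F).erase x) := by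
          intro z hz
          rw [mem_hex]
          intro B hB hTB hzB
          by_contra hzT
          apply hex1
          refine ⟨B, hB, fun w hw => ?_⟩
          by_cases hwx : w = x
          · have hzx : z = x := by
              by_contra hzx
              exact hzT (mem_erase.2 ⟨hzx, hz⟩)
            rw [hwx, ← hzx]
            exact hzB
          · exact hTB (mem_erase.2 ⟨hwx, hw⟩)
        refine ⟨insertNone (hex D ((eraseNone F).erase x)), ?_⟩
        ext X
        rw [mem_filter, mem_singleton, mem_ext22]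
        constructor
        · rintro ⟨⟨B', hB', rfl⟩ | ⟨T, hT', rfl⟩, hFX⟩
          · exact absurd ⟨B', hB', (subset_map_some.1 hFX).2⟩ hex1
          · rw [subset_insertNone] at hFX
            rw [hex_eq hP hD hQ hT' hT ((erase_subset _ _).trans hFX)]
        · rintro rfl
          exact ⟨Or.inr ⟨_, hT, rfl⟩, subset_insertNone.2 h0⟩

end Designs

/-- **Quasi-symmetric `3`-designs with smaller intersection number `1`.** Let `D` be a
`3`-`(v, k, lam)` design, `3 ≤ k < v`, on a set `P` of `v` points with exactly two intersection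
numbers `1 < y`. Then one of the following holds.

* `v = 5`, `k = 3` and `D` consists of all triples (the trivial, complete design).
* `v = 23` and `D` is a Steiner system `S(4, 7, 23)`, that is a Witt `4`-`(23, 7, 1)` design.
* `v = 22` and `D` is the residual of a Witt `4`-`(23, 7, 1)` design `W`: the point set of `W` is
  `P` with one additional point `none`, and the blocks of `D` are the blocks of `W` that miss the
  additional point. -/
theorem result (P : Type) [Fintype P] [DecidableEq P] (D : Finset (Finset P)) (k lam y : ℕ)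
    (hk : 3 ≤ k) (hkv : k < Fintype.card P) (hD : IsDesign 3 k lam D) (hy : 1 < y)
    (hQ : interNumbers D = {1, y}) :
    (Fintype.card P = 5 ∧ D = powersetCard 3 univ) ∨
    (Fintype.card P = 23 ∧ IsDesign 4 7 1 D) ∨
    (Fintype.card P = 22 ∧ ∃ W : Finset (Finset (Option P)), IsDesign 4 7 1 W ∧
      ∀ B : Finset P, B ∈ D ↔ B.map Function.Embedding.some ∈ W) := by
  rcases params hk hkv hD hy hQ with ⟨rfl, h1, rfl⟩ | ⟨rfl, h1, rfl, rfl⟩ | ⟨rfl, h1, rfl, rfl⟩
  · left
    refine ⟨h1, ?_⟩
    ext B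
    rw [mem_powersetCard]
    constructor
    · exact fun h => ⟨subset_univ _, hD.1 B h⟩
    · rintro ⟨-, hB⟩
      have h2 := hD.2 B hB
      obtain ⟨B', hB'⟩ : (D.filter (fun B' => B ⊆ B')).Nonempty := card_pos.1 (by omega)
      rw [mem_filter] at hB'
      rw [eq_of_subset_of_card_le hB'.2 (by rw [hD.1 B' hB'.1, hB])]
      exact hB'.1
  · right; right
    refine ⟨h1, ext22 D, steiner22 h1 hD hQ, fun B => ?_⟩
    rw [mem_ext22]
    constructor
    · exact fun h => Or.inl ⟨B, h, rfl⟩
    · rintro (⟨B', hB', h⟩ | ⟨T, -, h⟩)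
      · rwa [← map_injective _ h]
      · exfalso
        have h2 : (none : Option P) ∈ insertNone (hex D T) := by simp
        rw [h] at h2
        simp at h2
  · right; left
    exact ⟨h1, steiner23 h1 hD hQ⟩

end Pool.Agent.Results.MP_096921_co.SaneShrikhande
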